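import Pool.Agent.Helper34.LD2.WA2
import Pool.Agent.Helper5.LD2.PA
import Pool.Agent.Helper5.LD.GA
import Pool.Agent.Helper65.LD.Cov
import Pool.Agent.Helper67.LD2.Lin

/-!
# LD2, block PC: pair correlations for the powers
-/

open Set MeasureTheory

namespace Pool.Agent.Helper65.LD2

open Pool.Agent.Helper41.LD2
open Pool.Agent.Helper41.LD (av var ind haar idx)
open Pool.Agent.Helper34.LD2 (A_le_one A_le M_tail M_le A_children)
open Pool.Agent.Helper5.LD2 (int_haar_pw pw_Wd pw_children)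
open Pool.Agent.Helper5.LD (pair_piece pair_same)
open Pool.Agent.Helper65.LD (cov_gen av_le)
open Pool.Agent.Helper67.LD2 (pair_equi_gen pc_lin)

variable {A₀ x₁ x₂ : ℝ} {c : ℕ → ℝ} {n₀ : ℕ}

theorem vp_pos (hA : 0 < A₀) {a : ℝ} (ha : 0 < a) (j : ℕ) : 0 < vp A₀ j a := by
  unfold vp; positivity

/-- growth of the speed -/
theorem vp_grow (hA : 0 < A₀) {a : ℝ} (h1 : 1 < x₁) (ha : x₁ ≤ a) {s m f : ℕ} (h : s + m ≤ f) : x₁ ^ m * vp A₀ s a ≤ vp A₀ f a := by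
  obtain ⟨e, rfl⟩ := Nat.exists_eq_add_of_le h
  have ha1 : 1 ≤ a := by linarith
  have h2 : vp A₀ (s + m + e) a = (A₀ * ((s : ℝ) + m + e + 1) * a ^ s) * (a ^ m * a ^ e) := by
    unfold vp
    push_cast
    ring
  have h3 : x₁ ^ m * vp A₀ s a = (A₀ * ((s : ℝ) + 1) * a ^ s) * (x₁ ^ m * 1) := by
    unfold vp
    ring
  rw [h2, h3]
  have ha0 : 0 < a := by linarith
  have h4 : x₁ ^ m ≤ a ^ m := pow_le_pow_left₀ (by linarith) ha m
  have h5 : 1 ≤ a ^ e := one_le_pow₀ ha1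
  have h6 : (s : ℝ) + 1 ≤ s + m + e + 1 := by
    have : (0 : ℝ) ≤ m := Nat.cast_nonneg m
    have : (0 : ℝ) ≤ e := Nat.cast_nonneg e
    linarith
  have hx0 : 0 < x₁ := by linarith
  gcongr

theorem vp_big (hA : 0 < A₀) {a ℓ : ℝ} (h1 : 1 < x₁) (ha : x₁ ≤ a) {n : ℕ} (hw : PWin A₀ n a ℓ) (hℓ : 0 < ℓ) {m f : ℕ} (h : n + m ≤ f) :
    x₁ ^ m ≤ vp A₀ f a * ℓ := by
  have h2 := mul_le_mul_of_nonneg_right (vp_grow hA h1 ha h) hℓ.le
  have h3 : x₁ ^ m * 1 ≤ x₁ ^ m * (vp A₀ n a * ℓ) := mul_le_mul_of_nonneg_left hw.1 (by positivity)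
  calc x₁ ^ m = x₁ ^ m * 1 := (mul_one _).symm
    _ ≤ x₁ ^ m * (vp A₀ n a * ℓ) := h3
    _ = x₁ ^ m * vp A₀ n a * ℓ := by ring
    _ ≤ vp A₀ f a * ℓ := h2

theorem len_pos (hA : 0 < A₀) {a ℓ : ℝ} (ha : 0 < a) {n : ℕ} (hw : PWin A₀ n a ℓ) : 0 < ℓ := by
  by_contra h
  have h1 : vp A₀ n a * ℓ ≤ 0 := mul_nonpos_of_nonneg_of_nonpos (vp_pos hA ha n).le (not_lt.1 h)
  have := hw.1
  linarith

theorem inv_pow_le {K n L r Q₀ : ℕ} {ε : ℝ} (P : PPar A₀ x₁ x₂ n₀ K n L r Q₀ ε) {m : ℕ} (hm : r ≤ m) :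
    1 / x₁ ^ m ≤ (1 / 2) ^ (12 * K) := by
  have h1 := P.h1
  have h2 : (2 : ℝ) ^ (12 * K) ≤ x₁ ^ m := P.hr.trans (pow_le_pow_right₀ h1.le hm)
  rw [one_div_pow]
  exact one_div_le_one_div_of_le (by positivity) h2

/-- the linear pairs at different times -/
theorem Lne {K n L r Q₀ : ℕ} {ε : ℝ} (P : PPar A₀ x₁ x₂ n₀ K n L r Q₀ ε) {a ℓ : ℝ} (ha : x₁ ≤ a)
    (hw : PWin A₀ n a ℓ)
    (hE : ∀ i j : ℕ, n + L ≤ i + 2 * r → i < j → j ≤ n + L + r → j ≤ i + r → EqA (((j : ℝ) + 1) / (i + 1) * a ^ (j - i)) Q₀ ε)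
    (k p k' q : ℕ) (d d' : ℝ) {j : ℕ} (hj : j ≠ n + L - r) (hjm : j < n + L + r) :
    |av (fun x => haar k p (vp A₀ j a * x + d) * haar k' q (vp A₀ (n + L - r) a * x + d')) a ℓ| ≤ 6 * (1 / 2) ^ (12 * K) := by
  have hA := P.hA
  have h1 := P.h1
  have ha0 : 0 < a := by linarith
  have hL := P.hL
  have hr1 := P.hr1
  have hℓ : 0 < ℓ := len_pos hA ha0 hw
  set t : ℕ := n + L - r with ht
  set y : ℝ := (1 / 2) ^ (12 * K) with hy
  have hy0 : 0 < y := by positivity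
  have hpos : ∀ m : ℕ, 0 < vp A₀ m a := fun m => vp_pos hA ha0 m
  have hxpos : ∀ m : ℕ, (0 : ℝ) < x₁ ^ m := fun m => by positivity
  have hxl : ∀ m j : ℕ, r ≤ m → n + m ≤ j → 1 / (vp A₀ j a * ℓ) ≤ y := by
    intro m j hm hj
    exact (one_div_le_one_div_of_le (hxpos m) (vp_big hA h1 ha hw hℓ hj)).trans (inv_pow_le P hm)
  have hxd : ∀ s f : ℕ, s + r ≤ f → vp A₀ s a / vp A₀ f a ≤ y := by
    intro s f hsf
    have h2 := vp_grow hA h1 ha hsf
    rw [div_le_iff₀ (hpos f)]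
    have h3 := inv_pow_le P (le_refl r)
    rw [div_le_iff₀ (hxpos r)] at h3
    calc vp A₀ s a = 1 * vp A₀ s a := (one_mul _).symm
      _ ≤ (y * x₁ ^ r) * vp A₀ s a := mul_le_mul_of_nonneg_right h3 (hpos s).le
      _ = y * (x₁ ^ r * vp A₀ s a) := by ring
      _ ≤ y * vp A₀ f a := mul_le_mul_of_nonneg_left h2 hy0.le
  have hfar : ∀ (k i k' i' : ℕ) (d d' : ℝ) {s f : ℕ} (_ : s + r ≤ f) (_ : n + r ≤ f),
      |∫ x in a..(a + ℓ), haar k i (vp A₀ s a * x + d) * haar k' i' (vp A₀ f a * x + d')| / ℓ ≤ 6 * y := by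
    intro k i k' i' d d' s f hsf hnf
    have h1 := pair_piece (hpos f) (hpos s) k i k' i' d' d a (a + ℓ) (by linarith)
    rw [div_le_iff₀ hℓ]
    refine h1.trans ?_
    have h2 := hxd s f hsf
    have h3 := hxl r f le_rfl hnf
    have h4 : 2 * (vp A₀ s a * (a + ℓ - a) + 2) / vp A₀ f a = (2 * (vp A₀ s a / vp A₀ f a) + 4 * (1 / (vp A₀ f a * ℓ))) * ℓ := by
      have := (hpos f).ne'
      have := hℓ.ne'
      field_simp
      ring
    rw [h4]
    refine mul_le_mul_of_nonneg_right ?_ hℓ.le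
    linarith
  have hnear : ∀ (k i k' i' : ℕ) (d d' : ℝ) {s f : ℕ} (_ : s < f) (_ : f ≤ s + r) (_ : n + (L - 2 * r) ≤ s) (_ : f ≤ n + L + r),
      |∫ x in a..(a + ℓ), haar k i (vp A₀ s a * x + d) * haar k' i' (vp A₀ f a * x + d')| / ℓ ≤ 6 * y := by
    intro k i k' i' d d' s f hsf hfs hns hfm
    have h5 : x₁ ^ (L - 2 * r) ≤ vp A₀ s a * ℓ := vp_big hA h1 ha hw hℓ hns
    have h1 := pair_equi_gen (hE s f (by omega) hsf hfm hfs) P.hε0 (hpos s) k i k' i' d' d a (a + ℓ)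
      (by rw [add_sub_cancel_left]; exact P.hQ.trans h5)
    have h6 : vp A₀ s a * (((f : ℝ) + 1) / (s + 1) * a ^ (f - s)) = vp A₀ f a := by
      unfold vp
      have h7 : a ^ f = a ^ s * a ^ (f - s) := by rw [← pow_add]; congr 1; omega
      rw [h7]
      field_simp
    rw [h6] at h1
    rw [div_le_iff₀ hℓ]
    refine h1.trans ?_
    have h3 := hxl (L - 2 * r) s (by omega) hns
    have h4 : 2 * ε * (a + ℓ - a) + 1 / vp A₀ s a = (2 * ε + 1 / (vp A₀ s a * ℓ)) * ℓ := by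
      have := (hpos s).ne'
      have := hℓ.ne'
      field_simp
      ring
    rw [h4]
    refine mul_le_mul_of_nonneg_right ?_ hℓ.le
    have := P.hε
    rw [← hy] at this
    linarith
  rw [av, abs_div, abs_of_pos hℓ]
  rcases lt_or_gt_of_ne hj with hlt | hgt
  · rcases le_or_gt (j + r) t with h1 | h1
    · exact hfar k p k' q d d' h1 (by omega)
    · exact hnear k p k' q d d' hlt (by omega) (by omega) (by omega)
  · have hcomm : ∫ x in a..(a + ℓ), haar k p (vp A₀ j a * x + d) * haar k' q (vp A₀ t a * x + d') =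
        ∫ x in a..(a + ℓ), haar k' q (vp A₀ t a * x + d') * haar k p (vp A₀ j a * x + d) := by
      refine intervalIntegral.integral_congr (fun x _ => ?_)
      exact mul_comm _ _
    rw [hcomm]
    rcases le_or_gt (t + r) j with h1 | h1
    · exact hfar k' q k p d' d h1 (by omega)
    · exact hnear k' q k p d' d hgt (by omega) (by omega) (by omega)

theorem Lsame {K n L r Q₀ : ℕ} {ε : ℝ} (P : PPar A₀ x₁ x₂ n₀ K n L r Q₀ ε) {a ℓ : ℝ} (ha : x₁ ≤ a)
    (hw : PWin A₀ n a ℓ) {k i k' i' : ℕ} (hi : i < 2 ^ k) (hi' : i' < 2 ^ k') (d : ℝ) :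
    |av (fun x => haar k i (vp A₀ (n + L - r) a * x + d) * haar k' i' (vp A₀ (n + L - r) a * x + d)) a ℓ -
      (if k = k' ∧ i = i' then (1 / 2) ^ k else 0)| ≤ 2 * (1 / 2) ^ (12 * K) := by
  have hA := P.hA
  have h1 := P.h1
  have ha0 : 0 < a := by linarith
  have hL := P.hL
  have hr1 := P.hr1
  have hℓ : 0 < ℓ := len_pos hA ha0 hw
  set t : ℕ := n + L - r with ht
  have hpos : ∀ m : ℕ, 0 < vp A₀ m a := fun m => vp_pos hA ha0 m
  have h2 := pair_same (hpos t) hi hi' d a (a + ℓ) (by linarith)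
  have h3 : av (fun x => haar k i (vp A₀ t a * x + d) * haar k' i' (vp A₀ t a * x + d)) a ℓ - (if k = k' ∧ i = i' then (1 / 2) ^ k else 0) =
      ((∫ x in a..(a + ℓ), haar k i (vp A₀ t a * x + d) * haar k' i' (vp A₀ t a * x + d)) -
        (a + ℓ - a) * (if k = k' ∧ i = i' then (1 / 2) ^ k else 0)) / ℓ := by
    rw [av, add_sub_cancel_left, sub_div, mul_div_cancel_left₀ _ hℓ.ne']
  rw [h3, abs_div, abs_of_pos hℓ, div_le_iff₀ hℓ]
  refine h2.trans ?_
  have h4 : 1 / (vp A₀ t a * ℓ) ≤ (1 / 2) ^ (12 * K) :=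
    (one_div_le_one_div_of_le (by positivity) (vp_big hA h1 ha hw hℓ (m := r) (by omega))).trans (inv_pow_le P le_rfl)
  have h5 : 2 / vp A₀ t a = 2 * (1 / (vp A₀ t a * ℓ)) * ℓ := by
    have := (hpos t).ne'
    have := hℓ.ne'
    field_simp
  rw [h5]
  refine mul_le_mul_of_nonneg_right ?_ hℓ.le
  linarith

theorem pw_meas (j : ℕ) : Measurable (pw A₀ c n₀ j) := by
  unfold pw
  split_ifs <;> fun_prop

theorem pw_mono (hA : 0 < A₀) {a ℓ : ℝ} (ha : 0 < a) (j : ℕ) : MonotoneOn (pw A₀ c n₀ j) (Icc a (a + ℓ)) := by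
  intro x hx y hy hxy
  unfold pw
  split_ifs
  · exact le_rfl
  · have hx0 : 0 ≤ x := ha.le.trans hx.1
    have := mul_le_mul_of_nonneg_left (pow_le_pow_left₀ hx0 hxy (j + 1)) hA.le
    linarith

theorem len_small {K n L r Q₀ : ℕ} {ε : ℝ} (P : PPar A₀ x₁ x₂ n₀ K n L r Q₀ ε) {a ℓ : ℝ} (ha : x₁ ≤ a)
    (hw : PWin A₀ n a ℓ) : ((n : ℝ) + L + r + 1) * ℓ ≤ 1 / 2 := by
  have hA := P.hA
  have h1 := P.h1
  have ha0 : 0 < a := by linarith
  have hℓ : 0 < ℓ := len_pos hA ha0 hw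
  set M : ℝ := (n : ℝ) + L + r + 1 with hM
  have hn0 : (0 : ℝ) ≤ n := Nat.cast_nonneg n
  have hM1 : 1 ≤ M := by
    have : (0 : ℝ) ≤ L := Nat.cast_nonneg L
    have : (0 : ℝ) ≤ r := Nat.cast_nonneg r
    linarith
  have h2 : A₀ * x₁ ^ n * ℓ ≤ 2 := by
    have h3 : x₁ ^ n ≤ a ^ n := pow_le_pow_left₀ (by linarith) ha n
    have h4 : A₀ * x₁ ^ n * ℓ ≤ vp A₀ n a * ℓ := by
      refine mul_le_mul_of_nonneg_right ?_ hℓ.le
      unfold vp
      calc A₀ * x₁ ^ n ≤ A₀ * a ^ n := mul_le_mul_of_nonneg_left h3 hA.le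
        _ = A₀ * 1 * a ^ n := by ring
        _ ≤ A₀ * (n + 1) * a ^ n := by gcongr; linarith
    exact h4.trans hw.2
  have h5 := P.hlin
  have h6 : 4 * M ^ 2 ≤ A₀ * x₁ ^ n := by
    refine le_trans ?_ h5
    have h7 : 1 ≤ x₂ ^ (L + r) := one_le_pow₀ (h1.le.trans P.h12)
    have h8 : (1 : ℝ) ≤ 2 ^ (16 * K) := one_le_pow₀ (by norm_num)
    calc 4 * M ^ 2 = 4 * M ^ 2 * 1 * 1 := by ring
      _ ≤ 4 * M ^ 2 * x₂ ^ (L + r) * 2 ^ (16 * K) := by gcongr
  have h9 : 4 * M ^ 2 * ℓ ≤ 2 := (mul_le_mul_of_nonneg_right h6 hℓ.le).trans h2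
  have h10 : M * ℓ ≤ M ^ 2 * ℓ := by
    refine mul_le_mul_of_nonneg_right ?_ hℓ.le
    nlinarith
  linarith

/-- the image of the window at time `t` -/
theorem pw_len {K n L r Q₀ : ℕ} {ε : ℝ} (P : PPar A₀ x₁ x₂ n₀ K n L r Q₀ ε) {a ℓ : ℝ} (ha : x₁ ≤ a)
    (hw : PWin A₀ n a ℓ) {t : ℕ} (ht : t ≤ n + L + r) : pw A₀ c n₀ t (a + ℓ) - pw A₀ c n₀ t a ≤ 2 * vp A₀ t a * ℓ := by
  have hA := P.hA
  have h1 := P.h1
  have ha1 : 1 ≤ a := by linarith
  have ha0 : 0 < a := by linarith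
  have hℓ : 0 < ℓ := len_pos hA ha0 hw
  have hv := vp_pos hA ha0 t
  unfold pw
  split_ifs
  · rw [sub_self]
    positivity
  · have h2 := abs_pow_sub_pow_le (a + ℓ) a (t + 1)
    rw [add_sub_cancel_left, abs_of_pos hℓ, abs_of_pos (show 0 < a + ℓ by linarith), abs_of_pos ha0,
      max_eq_left (by linarith), Nat.add_sub_cancel] at h2
    have h3 : (a + ℓ) ^ (t + 1) - a ^ (t + 1) ≤ ℓ * (t + 1 : ℕ) * (a + ℓ) ^ t := (le_abs_self _).trans h2
    have h4 : (a + ℓ) ^ t ≤ 2 * a ^ t := by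
      have h5 : a + ℓ ≤ a * (1 + ℓ) := by nlinarith
      have h6 : (1 + ℓ) ^ t ≤ 2 := by
        have h7 : 1 + ℓ ≤ Real.exp ℓ := by
          have := Real.add_one_le_exp ℓ
          linarith
        have h8 : (1 + ℓ) ^ t ≤ Real.exp (t * ℓ) := by
          rw [Real.exp_nat_mul]
          exact pow_le_pow_left₀ (by positivity) h7 t
        have h9 : (t : ℝ) * ℓ ≤ 1 / 2 := by
          have h10 := len_small P ha hw
          have h11 : (t : ℝ) ≤ (n : ℝ) + L + r := by exact_mod_cast ht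
          have h12 : (t : ℝ) * ℓ ≤ ((n : ℝ) + L + r + 1) * ℓ := mul_le_mul_of_nonneg_right (by linarith) hℓ.le
          linarith
        have h13 : Real.exp (1 / 2) ≤ 2 := by
          have h14 : Real.exp (1 / 2) ^ 2 ≤ 2 ^ 2 := by
            rw [← Real.exp_nat_mul]
            norm_num
            have := Real.exp_one_lt_d9
            linarith
          exact (pow_le_pow_iff_left₀ (Real.exp_pos _).le (by norm_num) two_ne_zero).1 h14
        exact h8.trans ((Real.exp_le_exp.2 h9).trans h13)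
      calc (a + ℓ) ^ t ≤ (a * (1 + ℓ)) ^ t := pow_le_pow_left₀ (by linarith) h5 t
        _ = a ^ t * (1 + ℓ) ^ t := mul_pow _ _ _
        _ ≤ a ^ t * 2 := mul_le_mul_of_nonneg_left h6 (by positivity)
        _ = 2 * a ^ t := by ring
    have h5 : A₀ * (a + ℓ) ^ (t + 1) + c t - (A₀ * a ^ (t + 1) + c t) = A₀ * ((a + ℓ) ^ (t + 1) - a ^ (t + 1)) := by ring
    rw [h5]
    calc A₀ * ((a + ℓ) ^ (t + 1) - a ^ (t + 1)) ≤ A₀ * (ℓ * (t + 1 : ℕ) * (a + ℓ) ^ t) := mul_le_mul_of_nonneg_left h3 hA.le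
      _ ≤ A₀ * (ℓ * (t + 1 : ℕ) * (2 * a ^ t)) := by gcongr
      _ = 2 * vp A₀ t a * ℓ := by
          unfold vp
          push_cast
          ring

theorem pair_corr_pw {K n L r Q₀ : ℕ} {ε : ℝ} (P : PPar A₀ x₁ x₂ n₀ K n L r Q₀ ε) {a ℓ : ℝ} (ha : x₁ ≤ a) (hb : a + ℓ ≤ x₂)
    (hw : PWin A₀ n a ℓ) {B : ℕ} (hBdef : B = ⌊vp A₀ (n + L) a * ℓ⌋₊)
    (hE : ∀ i j : ℕ, n + L ≤ i + 2 * r → i < j → j ≤ n + L + r → j ≤ i + r → EqA (((j : ℝ) + 1) / (i + 1) * a ^ (j - i)) Q₀ ε)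
    {k i k' i' : ℕ} (hk : k < K) (hi : i < 2 ^ k) (hk' : k' < K) (hi' : i' < 2 ^ k') :
    |(∑ b ∈ Finset.range B, (M (pw A₀ c n₀) k i (a + b * (ℓ / B)) (ℓ / B) - M (pw A₀ c n₀) k i a ℓ) *
        A (pw A₀ c n₀) k' i' (n + L - r) (a + b * (ℓ / B)) (ℓ / B)) / B -
      (if k = k' ∧ i = i' then (1 / 2) ^ k else 0)| ≤ (1 / 2) ^ (4 * K) := by
  have hA := P.hA
  have hx1 := P.h1
  have h0 : (0 : ℝ) < x₁ := by linarith
  have ha0 : 0 < a := by linarith
  have hL := P.hL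
  have hr1 := P.hr1
  have hn₀ := P.hn₀
  have hℓ : 0 < ℓ := len_pos hA ha0 hw
  have hpos : ∀ m : ℕ, 0 < vp A₀ m a := fun m => vp_pos hA ha0 m
  have hxpos : ∀ m : ℕ, (0 : ℝ) < x₁ ^ m := fun m => by positivity
  have hWd : Wd (pw A₀ c n₀) x₁ n (n + L) a ℓ := pw_Wd P ha hb hw
  have hvl1 : 1 ≤ vp A₀ (n + L) a * ℓ := by
    have := vp_big hA hx1 ha hw hℓ (m := L) (le_refl (n + L))
    exact (one_le_pow₀ hx1.le).trans this
  have hBle : (B : ℝ) ≤ vp A₀ (n + L) a * ℓ := by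
    rw [hBdef]
    exact Nat.floor_le (by linarith)
  have hBlt : vp A₀ (n + L) a * ℓ < B + 1 := by
    rw [hBdef]
    exact Nat.lt_floor_add_one _
  have hB : 1 ≤ B := by
    rw [hBdef]
    exact Nat.le_floor (by simpa using hvl1)
  have hB1 : (1 : ℝ) ≤ B := by exact_mod_cast hB
  have hB0 : (0 : ℝ) < B := by linarith
  have hℓB : 0 < ℓ / B := by positivity
  have hmeas : ∀ j, Measurable (pw A₀ c n₀ j) := pw_meas
  have hchild : ∀ b < B, Wd (pw A₀ c n₀) x₁ (n + L) (n + L) (a + b * (ℓ / B)) (ℓ / B) := by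
    intro b hb'
    obtain ⟨-, -, h3⟩ := pw_children P ha hb hw
    rw [← hBdef] at h3
    obtain ⟨h4, h5, -⟩ := h3 b hb'
    have hab0 : 0 < a + b * (ℓ / B) := by linarith
    refine ⟨hℓB, hmeas, ?_, fun k i j h1 h2 => absurd h1 (by omega)⟩
    intro k i j hj
    have h6 := int_haar_pw (c := c) hA k i (n₀ := n₀) (j := j) (by omega) hab0
      (show a + b * (ℓ / B) ≤ a + b * (ℓ / B) + ℓ / B by linarith)
    refine h6.trans ?_
    obtain ⟨e, rfl⟩ := Nat.exists_eq_add_of_le hj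
    rw [Nat.add_sub_cancel_left]
    have h7 := vp_big hA hx1 h5 h4 hℓB (m := e) (le_refl (n + L + e))
    have hv := vp_pos hA hab0 (n + L + e)
    rw [div_le_iff₀ hv, inv_pow, mul_assoc, mul_assoc]
    refine le_mul_of_one_le_right (by positivity) ?_
    rw [inv_mul_eq_div, one_le_div (hxpos e)]
    calc x₁ ^ e ≤ vp A₀ (n + L + e) (a + b * (ℓ / B)) * (ℓ / B) := h7
      _ = ℓ / B * vp A₀ (n + L + e) (a + b * (ℓ / B)) := by ring
  set t : ℕ := n + L - r with ht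
  set m : ℕ := n + L + r with hm
  set y : ℝ := (1 / 2) ^ (12 * K) with hy
  have hy0 : 0 < y := by positivity
  set z : ℝ := 2 ^ K with hz
  have hz2 : 2 ≤ z := by
    calc (2 : ℝ) = 2 ^ 1 := by norm_num
      _ ≤ 2 ^ K := pow_le_pow_right₀ (by norm_num) P.hK
  have hz0 : 0 < z := by linarith
  have hKz : (K : ℝ) ≤ z := by
    have : K < 2 ^ K := Nat.lt_two_pow_self
    have h2 : ((K : ℕ) : ℝ) < ((2 ^ K : ℕ) : ℝ) := by exact_mod_cast this
    push_cast at h2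
    exact h2.le
  have hxr : 1 / x₁ ^ r ≤ y := inv_pow_le P le_rfl
  have hyz : y * z ^ 12 = 1 := by
    rw [hy, hz, ← pow_mul, mul_comm K 12, ← mul_pow]
    norm_num
  set δ : ℝ := if k = k' ∧ i = i' then (1 / 2) ^ k else 0 with hδ
  -- the covariance error
  set e0 : ℝ := 2 * (2 ^ (k' + 1) * (pw A₀ c n₀ t (a + ℓ) - pw A₀ c n₀ t a) + 1) / B with he0
  have hBL : 1 / (B : ℝ) ≤ 2 * y := by
    have h1 : x₁ ^ L ≤ 2 * B := by
      have h3 := vp_big hA hx1 ha hw hℓ (m := L) (le_refl (n + L))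
      linarith
    have h2 : 1 / x₁ ^ L ≤ y := inv_pow_le P (by omega)
    have h3 : 1 / (2 * (B : ℝ)) ≤ 1 / x₁ ^ L := one_div_le_one_div_of_le (hxpos L) h1
    have h4 : 1 / (B : ℝ) = 2 * (1 / (2 * (B : ℝ))) := by field_simp
    rw [h4]
    linarith
  have htB : (pw A₀ c n₀ t (a + ℓ) - pw A₀ c n₀ t a) / B ≤ 4 * y := by
    have h1 := pw_len (c := c) P ha hw (t := t) (by omega)
    have h2 : x₁ ^ r * vp A₀ t a ≤ vp A₀ (n + L) a := vp_grow hA hx1 ha (by omega)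
    have h3 : vp A₀ (n + L) a * ℓ ≤ 2 * B := by linarith
    have h4 : x₁ ^ r * (vp A₀ t a * ℓ) ≤ 2 * B := by
      calc x₁ ^ r * (vp A₀ t a * ℓ) = x₁ ^ r * vp A₀ t a * ℓ := by ring
        _ ≤ vp A₀ (n + L) a * ℓ := mul_le_mul_of_nonneg_right h2 hℓ.le
        _ ≤ 2 * B := h3
    rw [div_le_iff₀ hB0]
    refine h1.trans ?_
    have h5 : vp A₀ t a * ℓ ≤ y * (2 * B) := by
      have h6 : vp A₀ t a * ℓ ≤ 2 * B * (1 / x₁ ^ r) := by
        rw [mul_one_div, le_div_iff₀ (hxpos r)]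
        linarith
      refine h6.trans ?_
      rw [mul_comm y]
      exact mul_le_mul_of_nonneg_left hxr (by positivity)
    linarith
  have he0b : e0 ≤ 10 * z * y := by
    have h1 : (2 : ℝ) ^ (k' + 1) ≤ z := pow_le_pow_right₀ (by norm_num) hk'
    have h2 : e0 = 2 * (2 ^ (k' + 1) * ((pw A₀ c n₀ t (a + ℓ) - pw A₀ c n₀ t a) / B)) + 2 * (1 / B) := by
      rw [he0]
      field_simp
    have h3 : 2 ^ (k' + 1) * ((pw A₀ c n₀ t (a + ℓ) - pw A₀ c n₀ t a) / B) ≤ z * (4 * y) := by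
      have h5 : 0 ≤ pw A₀ c n₀ t (a + ℓ) - pw A₀ c n₀ t a := by
        have := pw_mono (c := c) (n₀ := n₀) hA (ℓ := ℓ) ha0 t (left_mem_Icc.2 (by linarith)) (right_mem_Icc.2 (by linarith))
          (show a ≤ a + ℓ by linarith)
        linarith
      exact mul_le_mul h1 htB (by positivity) (by positivity)
    rw [h2]
    nlinarith [mul_le_mul_of_nonneg_right hz2 hy0.le]
  -- the tails
  have hAt : ∀ b : ℕ, |A (pw A₀ c n₀) k' i' t (a + b * (ℓ / B)) (ℓ / B)| ≤ 1 := fun b => A_le_one hmeas k' i' t _ hℓB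
  have hsplit : (∑ b ∈ Finset.range B, (M (pw A₀ c n₀) k i (a + b * (ℓ / B)) (ℓ / B) - M (pw A₀ c n₀) k i a ℓ) *
        A (pw A₀ c n₀) k' i' t (a + b * (ℓ / B)) (ℓ / B)) / B =
      (∑ j ∈ Finset.range m, (∑ b ∈ Finset.range B, A (pw A₀ c n₀) k i j (a + b * (ℓ / B)) (ℓ / B) *
        A (pw A₀ c n₀) k' i' t (a + b * (ℓ / B)) (ℓ / B)) / B) +
      (∑ b ∈ Finset.range B, (M (pw A₀ c n₀) k i (a + b * (ℓ / B)) (ℓ / B) -
        ∑ j ∈ Finset.range m, A (pw A₀ c n₀) k i j (a + b * (ℓ / B)) (ℓ / B)) *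
          A (pw A₀ c n₀) k' i' t (a + b * (ℓ / B)) (ℓ / B)) / B -
      M (pw A₀ c n₀) k i a ℓ * A (pw A₀ c n₀) k' i' t a ℓ := by
    have h1 := A_children (U := pw A₀ c n₀) hmeas k' i' t a hℓ hB
    have h2 : M (pw A₀ c n₀) k i a ℓ * A (pw A₀ c n₀) k' i' t a ℓ =
        (∑ b ∈ Finset.range B, M (pw A₀ c n₀) k i a ℓ * A (pw A₀ c n₀) k' i' t (a + b * (ℓ / B)) (ℓ / B)) / B := by
      rw [← Finset.mul_sum, h1]
      field_simp
    rw [h2, ← Finset.sum_div, ← add_div, ← sub_div, Finset.sum_comm, ← Finset.sum_add_distrib, ← Finset.sum_sub_distrib]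
    congr 1
    refine Finset.sum_congr rfl (fun b _ => ?_)
    rw [← Finset.sum_mul]
    ring
  have hR : |(∑ b ∈ Finset.range B, (M (pw A₀ c n₀) k i (a + b * (ℓ / B)) (ℓ / B) -
        ∑ j ∈ Finset.range m, A (pw A₀ c n₀) k i j (a + b * (ℓ / B)) (ℓ / B)) *
          A (pw A₀ c n₀) k' i' t (a + b * (ℓ / B)) (ℓ / B)) / B| ≤ K * y := by
    rw [abs_div, abs_of_pos hB0, div_le_iff₀ hB0]
    refine (Finset.abs_sum_le_sum_abs _ _).trans ?_
    calc ∑ b ∈ Finset.range B, |(M (pw A₀ c n₀) k i (a + b * (ℓ / B)) (ℓ / B) -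
        ∑ j ∈ Finset.range m, A (pw A₀ c n₀) k i j (a + b * (ℓ / B)) (ℓ / B)) *
          A (pw A₀ c n₀) k' i' t (a + b * (ℓ / B)) (ℓ / B)| ≤
          ∑ b ∈ Finset.range B, (K : ℝ) * y := by
          refine Finset.sum_le_sum (fun b hb' => ?_)
          rw [abs_mul]
          have h1 := M_tail hx1 (hchild b (Finset.mem_range.1 hb')) k i (m' := m) (by omega)
          have h2 : (1 / 2 : ℝ) ^ k * x₁⁻¹ ^ (m - (n + L)) * (x₁ / (x₁ - 1)) ≤ K * y := by
            have h3 : m - (n + L) = r := by omega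
            rw [h3]
            have h4 : x₁⁻¹ ^ r ≤ y := by
              rw [inv_pow, ← one_div]
              exact hxr
            have h5 : (1 / 2 : ℝ) ^ k ≤ 1 := pow_le_one₀ (by norm_num) (by norm_num)
            have h6 := P.hC
            have h7 : 0 < x₁ / (x₁ - 1) := div_pos h0 (by linarith)
            calc (1 / 2 : ℝ) ^ k * x₁⁻¹ ^ r * (x₁ / (x₁ - 1)) ≤ 1 * y * K := by gcongr
              _ = K * y := by ring
          calc |M (pw A₀ c n₀) k i (a + b * (ℓ / B)) (ℓ / B) -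
                ∑ j ∈ Finset.range m, A (pw A₀ c n₀) k i j (a + b * (ℓ / B)) (ℓ / B)| *
                |A (pw A₀ c n₀) k' i' t (a + b * (ℓ / B)) (ℓ / B)| ≤ (K * y) * 1 :=
                mul_le_mul (h1.trans h2) (hAt b) (abs_nonneg _) (by positivity)
            _ = K * y := mul_one _
      _ = K * y * B := by rw [Finset.sum_const, Finset.card_range, nsmul_eq_mul]; ring
  have hn' : (n : ℝ) + L + r ≤ z ^ 2 := by
    have h1 := P.hn
    have h2 : ((n + L + r : ℕ) : ℝ) ≤ ((2 ^ (2 * K) : ℕ) : ℝ) := by exact_mod_cast h1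
    push_cast at h2
    rw [hz, ← pow_mul, mul_comm K 2]
    exact h2
  have hAtJ : |A (pw A₀ c n₀) k' i' t a ℓ| ≤ y := by
    have h2 := A_le hWd k' i' (j := t) (by omega)
    refine h2.trans ?_
    have h4 : (1 / 2 : ℝ) ^ k' ≤ 1 := pow_le_one₀ (by norm_num) (by norm_num)
    have h5 : x₁⁻¹ ^ (t - n) ≤ y := by
      rw [inv_pow, ← one_div]
      exact inv_pow_le P (by omega)
    calc (1 / 2 : ℝ) ^ k' * x₁⁻¹ ^ (t - n) ≤ 1 * y := by gcongr
      _ = y := one_mul y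
  have hMA : |M (pw A₀ c n₀) k i a ℓ * A (pw A₀ c n₀) k' i' t a ℓ| ≤ (z ^ 2 + K) * y := by
    rw [abs_mul]
    have h1 := M_le hx1 hWd k i
    have h6 := P.hC
    have h7 : (0 : ℝ) ≤ L := Nat.cast_nonneg L
    have h8 : (0 : ℝ) ≤ r := Nat.cast_nonneg r
    exact mul_le_mul (by linarith) hAtJ (abs_nonneg _) (by positivity)
  -- the main sum
  have hmain : |(∑ j ∈ Finset.range m, (∑ b ∈ Finset.range B, A (pw A₀ c n₀) k i j (a + b * (ℓ / B)) (ℓ / B) *
        A (pw A₀ c n₀) k' i' t (a + b * (ℓ / B)) (ℓ / B)) / B) - δ| ≤ m * (10 * z * y + (6 * y + (1 / 2) ^ (11 * K))) := by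
    have htm : t ∈ Finset.range m := Finset.mem_range.2 (by omega)
    have h1 : δ = ∑ j ∈ Finset.range m, (if j = t then δ else 0) := by
      rw [Finset.sum_ite_eq' (Finset.range m) t (fun _ => δ), if_pos htm]
    have h2 : (∑ j ∈ Finset.range m, (∑ b ∈ Finset.range B, A (pw A₀ c n₀) k i j (a + b * (ℓ / B)) (ℓ / B) *
        A (pw A₀ c n₀) k' i' t (a + b * (ℓ / B)) (ℓ / B)) / B) - δ =
        ∑ j ∈ Finset.range m, ((∑ b ∈ Finset.range B, A (pw A₀ c n₀) k i j (a + b * (ℓ / B)) (ℓ / B) *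
        A (pw A₀ c n₀) k' i' t (a + b * (ℓ / B)) (ℓ / B)) / B - (if j = t then δ else 0)) := by
      rw [Finset.sum_sub_distrib, ← h1]
    rw [h2]
    refine (Finset.abs_sum_le_sum_abs _ _).trans ?_
    calc ∑ j ∈ Finset.range m, |(∑ b ∈ Finset.range B, A (pw A₀ c n₀) k i j (a + b * (ℓ / B)) (ℓ / B) *
        A (pw A₀ c n₀) k' i' t (a + b * (ℓ / B)) (ℓ / B)) / B - (if j = t then δ else 0)| ≤
          ∑ j ∈ Finset.range m, (10 * z * y + (6 * y + (1 / 2) ^ (11 * K))) := by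
          refine Finset.sum_le_sum (fun j hj => ?_)
          have hjm := Finset.mem_range.1 hj
          have h3 := cov_gen (F := fun x => haar k i (pw A₀ c n₀ j x)) (w := pw A₀ c n₀ t)
            ((Pool.Agent.Helper34.LD.measurable_haar k i).comp (hmeas j))
            (fun x => Pool.Agent.Helper34.LD.haar_abs_le k i _) (hmeas t) k' i' a hℓ (pw_mono hA ha0 t) hB
          rw [← he0] at h3
          have h4 : |av (fun x => haar k i (pw A₀ c n₀ j x) * haar k' i' (pw A₀ c n₀ t x)) a ℓ - (if j = t then δ else 0)| ≤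
              6 * y + (1 / 2) ^ (11 * K) := by
            rcases lt_or_ge j n₀ with hj0 | hj0
            · have hjt : j ≠ t := by omega
              rw [if_neg hjt, sub_zero]
              have h5 : av (fun x => haar k i (pw A₀ c n₀ j x) * haar k' i' (pw A₀ c n₀ t x)) a ℓ =
                  haar k i 0 * A (pw A₀ c n₀) k' i' t a ℓ := by
                have h6 : ∀ x, pw A₀ c n₀ j x = 0 := by
                  intro x
                  unfold pw
                  rw [if_pos hj0]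
                simp only [h6]
                rw [A, av, av, intervalIntegral.integral_const_mul]
                ring
              rw [h5, abs_mul]
              have h6 := Pool.Agent.Helper34.LD.haar_abs_le k i 0
              have h7 : |haar k i 0| * |A (pw A₀ c n₀) k' i' t a ℓ| ≤ 1 * y := mul_le_mul h6 hAtJ (abs_nonneg _) zero_le_one
              have h8 : (0 : ℝ) < (1 / 2) ^ (11 * K) := by positivity
              linarith
            · have h5 := pc_lin (c := c) P ha hb hw hj0 (t := t) (by omega) (by omega) (by omega) hk hk' i i'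
              by_cases hjt : j = t
              · rw [if_pos hjt]
                subst hjt
                have h6 := Lsame P ha hw hi hi' (pw A₀ c n₀ t a - vp A₀ t a * a)
                rw [← ht] at h6
                refine (abs_sub_le _ _ _).trans ((add_le_add h5 h6).trans ?_)
                rw [← hy]
                linarith
              · rw [if_neg hjt, sub_zero]
                have h6 := Lne P ha hw hE k i k' i' (pw A₀ c n₀ j a - vp A₀ j a * a) (pw A₀ c n₀ t a - vp A₀ t a * a) hjt hjm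
                rw [← ht, ← hy] at h6
                have h7 := abs_sub_abs_le_abs_sub (av (fun x => haar k i (pw A₀ c n₀ j x) * haar k' i' (pw A₀ c n₀ t x)) a ℓ)
                  (av (fun x => haar k i (vp A₀ j a * x + (pw A₀ c n₀ j a - vp A₀ j a * a)) *
                    haar k' i' (vp A₀ t a * x + (pw A₀ c n₀ t a - vp A₀ t a * a))) a ℓ)
                linarith
          refine (abs_sub_le _ (av (fun x => haar k i (pw A₀ c n₀ j x) * haar k' i' (pw A₀ c n₀ t x)) a ℓ) _).trans ?_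
          exact add_le_add (h3.trans he0b) h4
      _ = m * (10 * z * y + (6 * y + (1 / 2) ^ (11 * K))) := by rw [Finset.sum_const, Finset.card_range, nsmul_eq_mul]
  have hmz : (m : ℝ) ≤ z ^ 2 := by
    rw [hm]
    push_cast
    exact hn'
  have h11 : (1 / 2 : ℝ) ^ (11 * K) = y * z := by
    have h1 : (1 / 2 : ℝ) ^ (11 * K) * z ^ 11 = 1 := by
      rw [hz, ← pow_mul, mul_comm K 11, ← mul_pow]
      norm_num
    have h3 : y * z * z ^ 11 = 1 := by
      rw [mul_assoc, ← pow_succ']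
      exact hyz
    exact mul_right_cancel₀ (show z ^ 11 ≠ 0 by positivity) (h1.trans h3.symm)
  have h4z : (1 / 2 : ℝ) ^ (4 * K) = y * z ^ 8 := by
    have h1 : (1 / 2 : ℝ) ^ (4 * K) * z ^ 4 = 1 := by
      rw [hz, ← pow_mul, mul_comm K 4, ← mul_pow]
      norm_num
    have h3 : y * z ^ 8 * z ^ 4 = 1 := by
      rw [mul_assoc, ← pow_add]
      exact hyz
    exact mul_right_cancel₀ (show z ^ 4 ≠ 0 by positivity) (h1.trans h3.symm)
  rw [hsplit]
  have hfin : m * (10 * z * y + (6 * y + (1 / 2) ^ (11 * K))) + K * y + (z ^ 2 + K) * y ≤ (1 / 2) ^ (4 * K) := by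
    rw [h4z, h11]
    have h1 : (m : ℝ) * (10 * z * y + (6 * y + y * z)) ≤ z ^ 2 * (10 * z * y + (6 * y + y * z)) :=
      mul_le_mul_of_nonneg_right hmz (by positivity)
    have h2 : (K : ℝ) * y ≤ z * y := mul_le_mul_of_nonneg_right hKz hy0.le
    have h3 : z ^ 2 * (10 * z * y + (6 * y + y * z)) + z * y + (z ^ 2 + z) * y = y * (11 * z ^ 3 + 7 * z ^ 2 + 2 * z) := by ring
    have h4 : 11 * z ^ 3 + 7 * z ^ 2 + 2 * z ≤ z ^ 8 := by
      have h5 : (8 : ℝ) ≤ z ^ 3 := by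
        calc (8 : ℝ) = 2 ^ 3 := by norm_num
          _ ≤ z ^ 3 := pow_le_pow_left₀ (by norm_num) hz2 3
      have h64 : (64 : ℝ) ≤ z ^ 3 * z ^ 3 := by
        calc (64 : ℝ) = 8 * 8 := by norm_num
          _ ≤ z ^ 3 * z ^ 3 := mul_le_mul h5 h5 (by norm_num) (by positivity)
      have h32 : (32 : ℝ) ≤ z ^ 3 * z ^ 2 := by
        have h6 : (4 : ℝ) ≤ z ^ 2 := by
          calc (4 : ℝ) = 2 ^ 2 := by norm_num
            _ ≤ z ^ 2 := pow_le_pow_left₀ (by norm_num) hz2 2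
        calc (32 : ℝ) = 8 * 4 := by norm_num
          _ ≤ z ^ 3 * z ^ 2 := mul_le_mul h5 h6 (by norm_num) (by positivity)
      have h128 : (128 : ℝ) ≤ z ^ 3 * z ^ 3 * z := by
        calc (128 : ℝ) = 64 * 2 := by norm_num
          _ ≤ z ^ 3 * z ^ 3 * z := mul_le_mul h64 hz2 (by norm_num) (by positivity)
      have i1 : 32 * z ^ 3 ≤ z ^ 8 := by
        calc 32 * z ^ 3 ≤ (z ^ 3 * z ^ 2) * z ^ 3 := mul_le_mul_of_nonneg_right h32 (by positivity)
          _ = z ^ 8 := by ring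
      have i2 : 64 * z ^ 2 ≤ z ^ 8 := by
        calc 64 * z ^ 2 ≤ (z ^ 3 * z ^ 3) * z ^ 2 := mul_le_mul_of_nonneg_right h64 (by positivity)
          _ = z ^ 8 := by ring
      have i3 : 128 * z ≤ z ^ 8 := by
        calc 128 * z ≤ (z ^ 3 * z ^ 3 * z) * z := mul_le_mul_of_nonneg_right h128 (by positivity)
          _ = z ^ 8 := by ring
      have i0 : 0 < z ^ 3 := by positivity
      have i00 : 0 < z ^ 2 := by positivity
      linarith
    have h5 := mul_le_mul_of_nonneg_left h4 hy0.le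
    linarith
  refine le_trans ?_ hfin
  set S1 := ∑ j ∈ Finset.range m, (∑ b ∈ Finset.range B, A (pw A₀ c n₀) k i j (a + b * (ℓ / B)) (ℓ / B) *
        A (pw A₀ c n₀) k' i' t (a + b * (ℓ / B)) (ℓ / B)) / B
  set S2 := (∑ b ∈ Finset.range B, (M (pw A₀ c n₀) k i (a + b * (ℓ / B)) (ℓ / B) -
        ∑ j ∈ Finset.range m, A (pw A₀ c n₀) k i j (a + b * (ℓ / B)) (ℓ / B)) *
          A (pw A₀ c n₀) k' i' t (a + b * (ℓ / B)) (ℓ / B)) / B
  set S3 := M (pw A₀ c n₀) k i a ℓ * A (pw A₀ c n₀) k' i' t a ℓ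
  have h1 : S1 + S2 - S3 - δ = (S1 - δ) + S2 - S3 := by ring
  rw [h1]
  calc |(S1 - δ) + S2 - S3| ≤ |(S1 - δ) + S2| + |S3| := abs_sub _ _
    _ ≤ |S1 - δ| + |S2| + |S3| := by
        have := abs_add_le (S1 - δ) S2
        linarith
    _ ≤ _ := by linarith

end Pool.Agent.Helper65.LD2
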